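import Pool.Agent.LAT.StmtsC

/-!
# The set of the certificates is finite, the chains are short
-/

set_option autoImplicit false

namespace Pool.Agent.LAT.H24

open Matrix Pool.Agent.LAT

theorem lb_self {m : ℕ} (G : Matrix (Fin m) (Fin m) ℤ) : LB G m = G := by
  ext i j
  unfold LB
  rw [Matrix.of_apply, if_pos ⟨i.2, j.2⟩]

theorem det_pos (ggp : GgpStmt) {m : ℕ} {B : Matrix (Fin m) (Fin m) ℤ} (hB : IsHNF B) :
    1 ≤ (GG B).det := by
  have h := ggp m B hB m le_rfl
  rwa [lb_self] at h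

theorem pq_all (ggp : GgpStmt) {n m d s : ℕ} {A : Matrix (Fin n) (Fin m) ℤ} {v : Fin m → ℤ}
    {l : List (Matrix (Fin m) (Fin m) ℤ)} {c : ℕ} {u : Fin m → ℤ} {z : Fin n → ℤ}
    {y : Fin m → ℤ} (h : IsCS A v d s l c u z y) : ∀ B ∈ l, PQ (rows A) (4 * d) B := by
  intro B hB
  obtain ⟨h1, h2⟩ := h.hnf B hB
  refine ⟨h1, h2, ?_⟩
  obtain ⟨t, ht, rfl⟩ := List.getElem_of_mem hB
  have hget : l.getD t 0 = l[t] := List.getD_eq_getElem _ _ ht
  have hc := h.pq
  have hCmem : l.getD c 0 ∈ l := by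
    rw [List.getD_eq_getElem _ _ h.lt]
    exact List.getElem_mem _
  have hC1 : 1 ≤ (GG (l.getD c 0)).det := det_pos ggp (h.hnf _ hCmem).1
  have hB1 : 1 ≤ (GG l[t]).det := det_pos ggp h1
  rcases lt_trichotomy t c with htc | htc | htc
  · have h3 := h.before t htc
    unfold phiLt at h3
    rw [hget] at h3
    have h4 := hc.2.2
    have h5 : (GG (l.getD c 0)).det * (GG l[t]).det ≤
        ((4 * d : ℕ) : ℤ) ^ piv (l.getD c 0) * (GG l[t]).det :=
      mul_le_mul_of_nonneg_right h4 (by omega)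
    have h6 : (GG (l.getD c 0)).det * (GG l[t]).det <
        (GG (l.getD c 0)).det * ((4 * d : ℕ) : ℤ) ^ piv l[t] := by
      rw [mul_comm (GG (l.getD c 0)).det (((4 * d : ℕ) : ℤ) ^ piv l[t])]
      exact h5.trans_lt h3
    exact (lt_of_mul_lt_mul_left h6 (by omega)).le
  · rw [← hget, htc]
    exact hc.2.2
  · have h3 := h.after t htc ht
    unfold phiLe at h3
    rw [hget] at h3
    have h4 := hc.2.2
    have h5 : (GG (l.getD c 0)).det * (GG l[t]).det ≤
        ((4 * d : ℕ) : ℤ) ^ piv (l.getD c 0) * (GG l[t]).det :=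
      mul_le_mul_of_nonneg_right h4 (by omega)
    have h6 : (GG (l.getD c 0)).det * (GG l[t]).det ≤
        (GG (l.getD c 0)).det * ((4 * d : ℕ) : ℤ) ^ piv l[t] := by
      rw [mul_comm (GG (l.getD c 0)).det (((4 * d : ℕ) : ℤ) ^ piv l[t])]
      exact h5.trans h3
    exact le_of_mul_le_mul_left h6 (by omega)

theorem len_all (hnd : HndStmt) (chn : ChnStmt) (ggp : GgpStmt) {n m d s : ℕ}
    {A : Matrix (Fin n) (Fin m) ℤ} {v : Fin m → ℤ}
    {l : List (Matrix (Fin m) (Fin m) ℤ)} {c : ℕ} {u : Fin m → ℤ} {z : Fin n → ℤ}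
    {y : Fin m → ℤ} (h : IsCS A v d s l c u z y) :
    l.length ≤ 1 + m * (1 + m * Nat.size (4 * d)) := by
  have hpq := pq_all ggp h
  have hch := h.chain
  clear h
  rcases l with _ | ⟨B, tl⟩
  · exact Nat.zero_le _
  · rw [List.pairwise_cons] at hch
    have h1 : (tl.map rows).length ≤ m * (1 + m * Nat.size (4 * d)) := by
      refine chn m (rows A) (4 * d) (tl.map rows) ?_ ?_
      · intro M hM
        obtain ⟨B', hB', rfl⟩ := List.mem_map.1 hM
        obtain ⟨k1, k2, k3⟩ := hpq B' (List.mem_cons_of_mem _ hB')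
        refine ⟨?_, k2, ?_⟩
        · intro hbot
          have h2 := hch.1 B' hB'
          rw [hbot] at h2
          exact not_lt_bot h2
        · rw [(hnd m B' k1).1, (hnd m B' k1).2]
          exact k3
      · rw [List.pairwise_map]
        exact hch.2
    rw [List.length_map] at h1
    rw [List.length_cons]
    omega

theorem finite_rng (k S : ℕ) : {u : Fin k → ℤ | ∀ j, Rng S (u j)}.Finite := by
  have h : (Set.pi Set.univ fun _ : Fin k => Set.Icc (-(2 ^ S : ℤ)) (2 ^ S)).Finite :=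
    Set.Finite.pi fun _ => Set.finite_Icc _ _
  refine h.subset fun u hu => ?_
  intro j _
  exact ⟨(hu j).1, (hu j).2.le⟩

theorem finite_lists {α : Type} {S : Set α} (hS : S.Finite) (K : ℕ) :
    {l : List α | (∀ x ∈ l, x ∈ S) ∧ l.length ≤ K}.Finite := by
  have := hS.to_subtype
  have h := (List.finite_length_le S K).image (List.map Subtype.val)
  refine h.subset ?_
  rintro l ⟨h1, h2⟩
  refine ⟨l.attachWith _ h1, ?_, ?_⟩
  · change (l.attachWith _ h1).length ≤ K
    rw [List.length_attachWith]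
    exact h2
  · rw [List.attachWith_map_subtype_val]

theorem csf (phs : PhsStmt) (phf : PhfStmt) (hnd : HndStmt) (hnu : HnuStmt) (chn : ChnStmt)
    (ggp : GgpStmt) : CsfStmt := by
  intro n m d s A v
  have k2 : ∀ p ∈ CS A v d s, ∀ B ∈ p.1, PQ (rows A) (4 * d) B := fun p hp => pq_all ggp hp
  have k3 : ∀ p ∈ CS A v d s, p.1.length ≤ 1 + m * (1 + m * Nat.size (4 * d)) := fun p hp =>
    len_all hnd chn ggp hp
  refine ⟨?_, k2, k3⟩
  have hS : {B | PQ (rows A) (4 * d) B}.Finite := by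
    refine Set.Finite.of_finite_image (f := rows)
      ((phf m (rows A) (4 * d)).subset ?_) ?_
    · rintro _ ⟨B, hB, rfl⟩
      refine ⟨hB.2.1, ?_⟩
      rw [(phs m (4 * d)).2.2.1, (hnd m B hB.1).1, (hnd m B hB.1).2]
      exact hB.2.2
    · intro B hB B' hB' h
      exact hnu m B B' hB.1 hB'.1 h
  have hfin := (finite_lists hS (1 + m * (1 + m * Nat.size (4 * d)))).prod
    ((Set.finite_Iio (1 + m * (1 + m * Nat.size (4 * d)))).prod
      ((finite_rng m ((s + 2) ^ 8)).prod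
        ((finite_rng n ((s + 2) ^ 8)).prod (finite_rng m ((s + 2) ^ 8)))))
  refine hfin.subset ?_
  rintro ⟨l, c, u, z, y⟩ hp
  have h1 := k2 _ hp
  have h2 := k3 _ hp
  have hp' : IsCS A v d s l c u z y := hp
  exact ⟨⟨h1, h2⟩, lt_of_lt_of_le hp'.lt h2, hp'.ru, hp'.rz, hp'.ry⟩

end Pool.Agent.LAT.H24
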